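import Pool.Agent.J4H78.HG.Stm
import Pool.Agent.Y773.HK.Geo

/-! # Project HG (helper78), piece BSI (helper89): a basis of an ideal and its determinant -/

set_option autoImplicit false

open NumberField Complex Filter Topology MeasureTheory
open Pool.Agent.Y773 (rl)

namespace Pool.Agent.J4H89.HG

/-- the square of the determinant of an integral basis -/
theorem det_sq (L : Type) [Field L] [NumberField L] [IsTotallyReal L] [DecidableEq (InfinitePlace L)]
    (b : Module.Basis (InfinitePlace L) ℤ (𝓞 L)) :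
    (Matrix.of fun i w => rl w ((b i : 𝓞 L) : L)).det ^ 2 = (discr L : ℝ) := by
  have h1 : (Matrix.of fun i w => rl w ((b i : 𝓞 L) : L)) *
      (Matrix.of fun i w => rl w ((b i : 𝓞 L) : L)).transpose =
      (Algebra.traceMatrix ℤ b).map (Int.castRingHom ℝ) := by
    ext i j
    simp only [Matrix.mul_apply, Matrix.of_apply, Matrix.transpose_apply, Matrix.map_apply,
      Algebra.traceMatrix_apply, Algebra.traceForm_apply, eq_intCast]
    have h2 := Pool.Agent.Y773.trace_eq_sum (K := L) (((b i * b j : 𝓞 L)) : L)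
    rw [← Algebra.coe_trace_int] at h2
    push_cast at h2
    simp only [map_mul] at h2
    rw [← h2]
  have h3 := congrArg Matrix.det h1
  rw [Matrix.det_mul, Matrix.det_transpose, ← RingHom.mapMatrix_apply, ← RingHom.map_det] at h3
  rw [pow_two, h3, ← discr_eq_discr L b, Algebra.discr_def]
  simp

/-- **BSI** -/
theorem t_BSI : Pool.Agent.J4H78.HG.S_BSI := by
  intro L _ _ _ 𝔟 h𝔟
  classical
  let e : Pool.Agent.Y773.Idx L ≃ InfinitePlace L := Fintype.equivOfCardEq Pool.Agent.Y773.card_Idx
  let b : Module.Basis (InfinitePlace L) ℤ (𝓞 L) := (RingOfIntegers.basis L).reindex e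
  let bI : Module.Basis (InfinitePlace L) ℤ 𝔟 := Ideal.selfBasis b 𝔟 h𝔟
  refine ⟨fun i => ((bI i : 𝔟) : 𝓞 L), ?_, ?_, ?_⟩
  · intro m hm
    have h1 : ∑ i, m i • bI i = 0 := by
      apply Subtype.ext
      push_cast
      simpa using hm
    have h2 := bI.linearIndependent
    rw [Fintype.linearIndependent_iff] at h2
    funext i
    exact h2 m h1 i
  · intro x
    constructor
    · intro hx
      refine ⟨fun i => bI.repr ⟨x, hx⟩ i, ?_⟩
      have h1 := bI.sum_repr ⟨x, hx⟩
      have h2 := congrArg (fun z : 𝔟 => (z : 𝓞 L)) h1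
      simp only at h2
      refine h2.symm.trans ?_
      push_cast
      rfl
    · rintro ⟨m, rfl⟩
      refine Ideal.sum_mem _ fun i _ => ?_
      exact zsmul_mem (bI i).2 (m i)
  · intro dec
    have hd : dec = Classical.decEq _ := Subsingleton.elim _ _
    subst hd
    have h1 : (Matrix.of fun i w => rl w (((bI i : 𝔟) : 𝓞 L) : L)) =
        ((b.toMatrix (fun i => ((bI i : 𝔟) : 𝓞 L))).transpose.map (Int.castRingHom ℝ)) *
          (Matrix.of fun i w => rl w ((b i : 𝓞 L) : L)) := by
      ext i w
      simp only [Matrix.mul_apply, Matrix.of_apply, Matrix.transpose_apply, Matrix.map_apply,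
        Module.Basis.toMatrix_apply, eq_intCast]
      have h2 := b.sum_repr ((bI i : 𝔟) : 𝓞 L)
      have h3 := congrArg (fun z : 𝓞 L => rl w ((z : 𝓞 L) : L)) h2
      refine h3.symm.trans ?_
      simp only [map_sum, zsmul_eq_mul, map_mul, map_intCast]
    rw [h1, Matrix.det_mul, abs_mul, ← RingHom.mapMatrix_apply, ← RingHom.map_det,
      Matrix.det_transpose]
    have h4 := Ideal.natAbs_det_basis_change b 𝔟 bI
    have h5 : |((Int.castRingHom ℝ) (b.toMatrix (fun i => ((bI i : 𝔟) : 𝓞 L))).det)| =
        (Ideal.absNorm 𝔟 : ℝ) := by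
      rw [← h4, Module.Basis.det_apply]
      simp only [eq_intCast]
      rw [Nat.cast_natAbs, Int.cast_abs]
      rfl
    rw [h5, mul_comm]
    congr 1
    rw [← det_sq L b, abs_pow, Real.sqrt_sq (abs_nonneg _)]

end Pool.Agent.J4H89.HG
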