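import Pool.Agent.J4H78.HG.Stm
import Pool.Agent.Y773.HK.Hf

/-! # Project HG (helper78), piece CUB (helper89): the integral of a character over the cube -/

set_option autoImplicit false

open NumberField Complex Filter Topology MeasureTheory Set
open Pool.Agent.Y773 (cube el elE rl)
open NumberField.Units

namespace Pool.Agent.J4H89.HG

/-- the integral of a nontrivial character of the circle -/
theorem one_int (a : ℝ) (ha : a ≠ 0) (h1 : Complex.exp ((a : ℂ) * I) = 1) :
    ∫ x : ℝ, (Ico (0 : ℝ) 1).indicator (fun x : ℝ => Complex.exp (-((a : ℂ) * I) * x)) x = 0 := by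
  rw [integral_indicator measurableSet_Ico, integral_Ico_eq_integral_Ioc,
    ← intervalIntegral.integral_of_le (zero_le_one)]
  have hc : -((a : ℂ) * I) ≠ 0 := by
    simp [ha]
  rw [integral_exp_mul_complex hc]
  simp only [ofReal_one, ofReal_zero, mul_one, mul_zero, Complex.exp_zero, Complex.exp_neg, h1]
  simp

/-- the product formula over the cube -/
theorem cube_int (L : Type) [Field L] [NumberField L] (a : Fin (rank L) → ℝ)
    (h : ∀ i, Complex.exp ((a i : ℂ) * I) = 1) (h0 : ∃ i, a i ≠ 0) :
    ∫ θ in cube L, Complex.exp (((-(∑ i, θ i * a i) : ℝ) : ℂ) * I) = 0 := by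
  classical
  have hcube : cube L = Set.pi univ (fun _ : Fin (rank L) => Ico (0 : ℝ) 1) := by
    ext θ
    simp only [cube, mem_ofPred_eq, mem_univ_pi]
    exact forall_congr' fun i => Int.floor_eq_zero_iff
  have hm : MeasurableSet (cube L) := by
    rw [hcube]
    exact MeasurableSet.univ_pi fun _ => measurableSet_Ico
  rw [← integral_indicator hm]
  have h1 : (cube L).indicator (fun θ => Complex.exp (((-(∑ i, θ i * a i) : ℝ) : ℂ) * I)) =
      fun θ => ∏ i, (Ico (0 : ℝ) 1).indicator
        (fun x : ℝ => Complex.exp (-((a i : ℂ) * I) * x)) (θ i) := by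
    funext θ
    by_cases hθ : θ ∈ cube L
    · rw [indicator_of_mem hθ]
      rw [hcube, mem_univ_pi] at hθ
      have h2 : ∀ i, (Ico (0 : ℝ) 1).indicator
          (fun x : ℝ => Complex.exp (-((a i : ℂ) * I) * x)) (θ i) =
          Complex.exp (-((a i : ℂ) * I) * θ i) := fun i => indicator_of_mem (hθ i) _
      simp only [h2]
      rw [← Complex.exp_sum]
      congr 1
      push_cast
      rw [neg_mul, Finset.sum_mul, ← Finset.sum_neg_distrib]
      exact Finset.sum_congr rfl fun i _ => by ring
    · rw [indicator_of_notMem hθ]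
      rw [hcube, mem_univ_pi, not_forall] at hθ
      obtain ⟨i, hi⟩ := hθ
      exact (Finset.prod_eq_zero (Finset.mem_univ i) (indicator_of_notMem hi _)).symm
  rw [h1]
  rw [integral_fintype_prod_volume_eq_prod (fun (i : Fin (rank L)) (x : ℝ) =>
    (Ico (0 : ℝ) 1).indicator (fun x : ℝ => Complex.exp (-((a i : ℂ) * I) * x)) x)]
  obtain ⟨i, hi⟩ := h0
  exact Finset.prod_eq_zero (Finset.mem_univ i) (one_int (a i) hi (h i))

/-- **CUB** -/
theorem t_CUB : Pool.Agent.J4H78.HG.S_CUB := by
  intro L _ _ _ μ hu hμ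
  classical
  let a : Fin (rank L) → ℝ := fun i =>
    ∑ w : InfinitePlace L, μ w * Real.log (w ((fundSystem L i : (𝓞 L)ˣ) : L))
  have hel : ∀ θ : Fin (rank L) → ℝ,
      ∑ w : InfinitePlace L, μ w * (el L ((0 : ℝ), θ) w / 2) = ∑ i, θ i * a i := by
    intro θ
    simp only [el, LinearMap.coe_mk, AddHom.coe_mk, a, Finset.mul_sum]
    rw [Finset.sum_comm]
    refine Finset.sum_congr rfl fun w _ => ?_
    rw [zero_add, Finset.sum_div, Finset.mul_sum]
    exact Finset.sum_congr rfl fun i _ => by ring
  have h1 : ∀ i, Complex.exp ((a i : ℂ) * I) = 1 := by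
    intro i
    have h2 := hu (fundSystem L i)
    unfold Pool.Agent.J4H78.HG.pw at h2
    rw [← Complex.exp_sum] at h2
    rw [← h2]
    congr 1
    simp only [a]
    push_cast
    rw [Finset.sum_mul]
  have h0 : ∃ i, a i ≠ 0 := by
    by_contra hcon
    push Not at hcon
    refine hμ ?_
    have hn : (0 : ℝ) < Fintype.card (InfinitePlace L) := by exact_mod_cast Fintype.card_pos
    set mn : ℝ := (∑ w, μ w) / Fintype.card (InfinitePlace L) with hmn
    refine ⟨mn, ?_⟩
    let y : InfinitePlace L → ℝ := fun w => μ w - mn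
    have hy : ∑ w, y w = 0 := by
      simp only [y, Finset.sum_sub_distrib, Finset.sum_const, Finset.card_univ, nsmul_eq_mul]
      rw [hmn]
      field_simp
      ring
    obtain ⟨⟨τ, θ⟩, hp⟩ := (elE L).surjective y
    rw [Pool.Agent.Y773.elE_apply] at hp
    have h3 := Pool.Agent.Y773.sum_el L (τ, θ)
    rw [hp, hy] at h3
    have hf : (Module.finrank ℚ L : ℝ) ≠ 0 := by
      have := Module.finrank_pos (R := ℚ) (M := L)
      exact_mod_cast this.ne'
    have h4 : τ = 0 := by
      rcases mul_eq_zero.mp h3.symm with h | h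
      · exact absurd h hf
      · exact h
    subst h4
    have h5 := hel θ
    simp only [hcon, mul_zero, Finset.sum_const_zero, hp] at h5
    have h6 : ∑ w, y w ^ 2 = 0 := by
      have h7 : ∑ w, y w ^ 2 = 2 * ∑ w, μ w * (y w / 2) - mn * ∑ w, y w := by
        rw [Finset.mul_sum, Finset.mul_sum, ← Finset.sum_sub_distrib]
        refine Finset.sum_congr rfl fun w _ => ?_
        simp only [y]
        ring
      rw [h7, h5, hy]
      ring
    intro w
    have h8 := (Finset.sum_eq_zero_iff_of_nonneg (fun w _ => sq_nonneg (y w))).mp h6 w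
      (Finset.mem_univ w)
    have h9 : y w = 0 := by
      simpa using h8
    simp only [y] at h9
    linarith
  have h2 := cube_int L a h1 h0
  rw [← h2]
  refine setIntegral_congr_fun ?_ ?_
  · have hcube : cube L = Set.pi univ (fun _ : Fin (rank L) => Ico (0 : ℝ) 1) := by
      ext θ
      simp only [cube, mem_ofPred_eq, mem_univ_pi]
      exact forall_congr' fun i => Int.floor_eq_zero_iff
    rw [hcube]
    exact MeasurableSet.univ_pi fun _ => measurableSet_Ico
  · intro θ _
    simp only [hel θ]

end Pool.Agent.J4H89.HG
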